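import Pool.Agent.Y122.TQ.Defs
import Pool.Agent.H423R2.RGL.CC1
import Pool.Agent.H423R2.RGL.CC5
import Pool.Agent.H423R2.RGL.CLS
import Pool.Agent.H423R2.RGL.INJ

/-!
# Project TQ (helper122), job TQ-FIN: the sum over the real primitive characters in terms of the
four families of each sign

Owner helper936. `Qr`, `Qr_unique` follow `Pool.Agent.H463R2.RGFIN`.
-/

set_option autoImplicit false

namespace Pool.Agent.Y936.TQ

open Finset Filter Topology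
open Pool.Agent.H306R2.RG
open Pool.Agent.Y122.TQ
open Pool.Agent.Y746.OA (clip)

noncomputable section

/-- `p` is the character of the family `φ` at `d`. -/
def Qr (φ : FD) (d : ℕ) (p : Σ N : ℕ, DirichletCharacter ℂ N) : Prop :=
  p.1 = φ.r * d ∧ ∀ n : ℕ, n ≠ 0 → p.2 (n : ZMod p.1) = ((cf φ d n : ℝ) : ℂ)

theorem Qr_unique {φ : FD} {d : ℕ} {p p' : Σ N : ℕ, DirichletCharacter ℂ N} (h0 : p.1 ≠ 0)
    (h : Qr φ d p) (h' : Qr φ d p') : p = p' := by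
  obtain ⟨N, χ⟩ := p
  obtain ⟨N', χ'⟩ := p'
  obtain ⟨h1, h2⟩ := h
  obtain ⟨h1', h2'⟩ := h'
  simp only at h0 h1 h2 h1' h2'
  have hN : N = N' := h1.trans h1'.symm
  subst hN
  have : χ = χ' := by
    apply MulChar.ext'
    intro a
    have : NeZero N := ⟨h0⟩
    have ha : a = ((a.val + N : ℕ) : ZMod N) := by
      rw [Nat.cast_add, ZMod.natCast_self, add_zero, ZMod.natCast_zmod_val]
    have hne : a.val + N ≠ 0 := by omega
    rw [ha, h2 _ hne, h2' _ hne]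
  rw [this]

/-- all properties -/
structure Rr (φ : FD) (d : ℕ) (p : Σ N : ℕ, DirichletCharacter ℂ N) : Prop where
  ne : p.1 ≠ 0
  prim : p.2.IsPrimitive
  sq : p.2 ^ 2 = 1
  ne1 : p.2 ≠ 1
  qr : Qr φ d p
  sgn : p.2 (-1) = if φ.a = 0 then 1 else -1
  lf : ∃ _ : NeZero p.1, ∀ σ : ℝ, 0 < σ →
    DirichletCharacter.LFunction p.2 (σ : ℂ) = ((LLg φ d σ : ℝ) : ℂ)

theorem r_bd {φ : FD} (hφ : Fam φ) : 1 ≤ φ.r ∧ φ.r ≤ 8 := by
  obtain ⟨ε, -, (rfl | rfl | rfl | rfl)⟩ := hφ <;> simp [F8, F4, F1]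

theorem Rr_exists {φ : FD} (hφ : Fam φ) {d : ℕ} (hA : φ.A d) (hs : Squarefree d) :
    ∃ p, Rr φ d p := by
  obtain ⟨h0, χ, h2, h3, h4, h5, h6⟩ := LnkC.CC1 φ hφ d hA hs
  have hr := (r_bd hφ).1
  have hN : NeZero (φ.r * d) := ⟨Nat.mul_ne_zero (by omega) (by omega)⟩
  exact ⟨⟨φ.r * d, χ⟩, hN.out, h2, h3, h4, ⟨rfl, h5⟩, h6, hN,
    fun σ hσ => LnkC.CC5 φ hφ d hA hs hN χ h4 h5 σ hσ⟩

open Classical in
/-- the character of the family at `d` -/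
def ch (φ : FD) (d : ℕ) : Σ N : ℕ, DirichletCharacter ℂ N :=
  if h : ∃ p, Rr φ d p then h.choose else ⟨0, 1⟩

theorem ch_spec {φ : FD} (hφ : Fam φ) {d : ℕ} (hA : φ.A d) (hs : Squarefree d) :
    Rr φ d (ch φ d) := by
  have h := Rr_exists hφ hA hs
  unfold ch
  rw [dif_pos h]
  exact h.choose_spec

theorem ch_inj {φ1 φ2 : FD} (h1 : Fam φ1) (h2 : Fam φ2) {d1 d2 : ℕ} (hA1 : φ1.A d1)
    (hs1 : Squarefree d1) (hA2 : φ2.A d2) (hs2 : Squarefree d2) (h : ch φ1 d1 = ch φ2 d2) :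
    φ1 = φ2 ∧ d1 = d2 := by
  have s1 := (ch_spec h1 hA1 hs1).qr
  have s2 := (ch_spec h2 hA2 hs2).qr
  rw [← h] at s2
  refine LnkC.INJ φ1 φ2 h1 h2 d1 d2 hA1 hs1 hA2 hs2 (s1.1.symm.trans s2.1) fun n hn => ?_
  have e1 := s1.2 n hn
  have e2 := s2.2 n hn
  rw [e1] at e2
  exact_mod_cast e2

open Classical in
/-- the four families of the sign `ε` -/
def FE (ε : ℤ) : Finset FD := {F8 ε, F4 ε, F1 ε 1, F1 ε 5}

theorem mem_FE {ε : ℤ} {φ : FD} :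
    φ ∈ FE ε ↔ φ = F8 ε ∨ φ = F4 ε ∨ φ = F1 ε 1 ∨ φ = F1 ε 5 := by
  unfold FE
  simp only [Finset.mem_insert, Finset.mem_singleton]

theorem FE_fam {ε : ℤ} (hε : ε = 1 ∨ ε = -1) {φ : FD} (h : φ ∈ FE ε) : Fam φ :=
  ⟨ε, hε, mem_FE.1 h⟩

theorem FE_a {ε : ℤ} {φ : FD} (h : φ ∈ FE ε) : φ.a = if ε = 1 then 0 else 1 := by
  rcases mem_FE.1 h with rfl | rfl | rfl | rfl <;> rfl

theorem sum_FE (ε : ℤ) (f : FD → ℝ) :
    ∑ φ ∈ FE ε, f φ = f (F8 ε) + (f (F4 ε) + (f (F1 ε 1) + f (F1 ε 5))) := by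
  classical
  have h1 : F8 ε ≠ F4 ε := fun h => by
    have := congrArg FD.r h
    simp [F8, F4] at this
  have h2 : ∀ c, F8 ε ≠ F1 ε c := fun c h => by
    have := congrArg FD.r h
    simp [F8, F1] at this
  have h3 : ∀ c, F4 ε ≠ F1 ε c := fun c h => by
    have := congrArg FD.r h
    simp [F4, F1] at this
  have h4 : F1 ε 1 ≠ F1 ε 5 := fun h => by
    have := congrArg FD.η h
    simp [F1] at this
    norm_num at this
  unfold FE
  rw [Finset.sum_insert, Finset.sum_insert, Finset.sum_insert, Finset.sum_singleton]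
  · simpa using h4
  · simp [h3]
  · simp [h1, h2]

open Classical in
/-- the members of the family of conductor `< X` -/
def All (φ : FD) (X : ℝ) : Finset ℕ :=
  (range ⌈X / φ.r⌉₊).filter (fun d => φ.A d ∧ Squarefree d)

theorem mem_All {φ : FD} (hφ : Fam φ) {X : ℝ} {d : ℕ} :
    d ∈ All φ X ↔ ((φ.r * d : ℕ) : ℝ) < X ∧ φ.A d ∧ Squarefree d := by
  classical
  have hr : (0 : ℝ) < φ.r := by exact_mod_cast (r_bd hφ).1
  unfold All
  rw [Finset.mem_filter, Finset.mem_range, Nat.lt_ceil, lt_div_iff₀ hr]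
  push_cast
  rw [mul_comm]

open Classical in
theorem SX_eq {ε : ℤ} (hε : ε = 1 ∨ ε = -1) (X : ℝ) :
    SX ε X = ↑(((FE ε).sigma (fun φ => All φ X)).image (fun x => ch x.1 x.2)) := by
  ext p
  rw [Finset.mem_coe, Finset.mem_image]
  constructor
  · rintro ⟨h0, hX, h1, h2, h3, h4⟩
    obtain ⟨φ, d, hφ, hA, hs, hN, hval⟩ := LnkC.CLS p.1 h0 p.2 h1 h2 h3
    have hch := ch_spec hφ hA hs
    have e : p = ch φ d := Qr_unique h0 ⟨hN, hval⟩ hch.qr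
    obtain ⟨ε', hε', hfam⟩ := id hφ
    have hmem : φ ∈ FE ε' := mem_FE.2 hfam
    have ha := FE_a hmem
    have hs' := hch.sgn
    rw [← e, h4, ha] at hs'
    have hee : ε' = ε := by
      rcases hε with rfl | rfl <;> rcases hε' with rfl | rfl
      · rfl
      · norm_num at hs'
      · norm_num at hs'
      · rfl
    subst hee
    refine ⟨⟨φ, d⟩, Finset.mem_sigma.2 ⟨hmem, (mem_All hφ).2 ⟨?_, hA, hs⟩⟩, e.symm⟩
    rw [← hN]
    exact hX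
  · rintro ⟨⟨φ, d⟩, hx, rfl⟩
    obtain ⟨hmem, hd⟩ := Finset.mem_sigma.1 hx
    have hφ := FE_fam hε hmem
    obtain ⟨hX, hA, hs⟩ := (mem_All hφ).1 hd
    have hch := ch_spec hφ hA hs
    refine ⟨hch.ne, ?_, hch.prim, hch.sq, hch.ne1, ?_⟩
    · rw [hch.qr.1]
      exact hX
    · rw [hch.sgn, FE_a hmem]
      rcases hε with rfl | rfl <;> simp

theorem SX_fin {ε : ℤ} (hε : ε = 1 ∨ ε = -1) (X : ℝ) : (SX ε X).Finite := by
  rw [SX_eq hε]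
  exact Finset.finite_toSet _

theorem finsum_SX {ε : ℤ} (hε : ε = 1 ∨ ε = -1) (X : ℝ)
    (g : (Σ N : ℕ, DirichletCharacter ℂ N) → ℝ) :
    ∑ᶠ p ∈ SX ε X, g p = ∑ φ ∈ FE ε, ∑ d ∈ All φ X, g (ch φ d) := by
  classical
  rw [SX_eq hε, finsum_mem_coe_finset, Finset.sum_image, Finset.sum_sigma]
  rintro ⟨φ1, d1⟩ hx1 ⟨φ2, d2⟩ hx2 h
  obtain ⟨hm1, hd1⟩ := Finset.mem_sigma.1 (Finset.mem_coe.1 hx1)
  obtain ⟨hm2, hd2⟩ := Finset.mem_sigma.1 (Finset.mem_coe.1 hx2)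
  have hφ1 := FE_fam hε hm1
  have hφ2 := FE_fam hε hm2
  obtain ⟨-, hA1, hs1⟩ := (mem_All hφ1).1 hd1
  obtain ⟨-, hA2, hs2⟩ := (mem_All hφ2).1 hd2
  obtain ⟨e1, e2⟩ := ch_inj hφ1 hφ2 hA1 hs1 hA2 hs2 h
  simp only at e1 e2
  subst e1
  subst e2
  rfl

theorem Lv_ch {φ : FD} {d : ℕ} {p : Σ N : ℕ, DirichletCharacter ℂ N} (h : Rr φ d p) {δ : ℝ}
    (hδ : 0 < δ) : ‖Lv δ p‖ = |LLg φ d (1 / 2 + δ)| := by
  obtain ⟨h0, hl⟩ := h.lf
  unfold Lv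
  rw [dif_pos h.ne, hl _ (by linarith), Complex.norm_real, Real.norm_eq_abs]

end

end Pool.Agent.Y936.TQ
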