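import Pool.Agent.Y936.TQ.Fin1

/-!
# Project TQ (helper122), job TQ-FIN: all fundamental discriminants, from `FAM` and `MTB`

Owner helper936.
-/

set_option autoImplicit false

namespace Pool.Agent.Y936.TQ

open Filter Topology
open Pool.Agent.H306R2.RG
open Pool.Agent.Y122.TQ
open Pool.Agent.Y746.OA (clip clip_pos clip_pow_le)

noncomputable section

theorem e_bd {φ : FD} (hφ : Fam φ) : |φ.η| ≤ 1 := by
  obtain ⟨ε, -, (rfl | rfl | rfl | rfl)⟩ := hφ <;> norm_num [F8, F4, F1]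

theorem d_bd {φ : FD} (hφ : Fam φ) : 0 ≤ φ.δ ∧ φ.δ ≤ 1 / 2 := by
  obtain ⟨ε, -, (rfl | rfl | rfl | rfl)⟩ := hφ <;> norm_num [F8, F4, F1]

theorem ev_log (K r : ℝ) (n : ℕ) (hr : 0 < r) :
    ∀ᶠ X : ℝ in atTop, K * Real.log X ^ n ≤ X ^ r := by
  have h1 : (fun x : ℝ => Real.log x ^ ((n : ℕ) : ℝ)) =o[atTop] fun x => x ^ r :=
    isLittleO_log_rpow_rpow_atTop (n : ℝ) hr
  have h2 := h1.bound (show (0 : ℝ) < 1 / (|K| + 1) by positivity)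
  filter_upwards [h2, eventually_ge_atTop 1] with X hX hX1
  have hl : 0 ≤ Real.log X := Real.log_nonneg hX1
  rw [Real.rpow_natCast, Real.norm_of_nonneg (by positivity),
    Real.norm_of_nonneg (by positivity)] at hX
  have h3 : (|K| + 1) * Real.log X ^ n ≤ X ^ r := by
    have h4 : (|K| + 1) * Real.log X ^ n ≤ (|K| + 1) * (1 / (|K| + 1) * X ^ r) :=
      mul_le_mul_of_nonneg_left hX (by positivity)
    have h5 : (|K| + 1) * (1 / (|K| + 1) * X ^ r) = X ^ r := by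
      field_simp
    linarith
  have h6 : K * Real.log X ^ n ≤ (|K| + 1) * Real.log X ^ n :=
    mul_le_mul_of_nonneg_right (by linarith [le_abs_self K]) (by positivity)
  linarith

theorem ev_loglog (K : ℝ) : ∀ᶠ X : ℝ in atTop, K ≤ Real.log (Real.log X) :=
  (Real.tendsto_log_atTop.comp Real.tendsto_log_atTop).eventually_ge_atTop K

theorem ev_log' (K : ℝ) : ∀ᶠ X : ℝ in atTop, K ≤ Real.log X :=
  Real.tendsto_log_atTop.eventually_ge_atTop K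

/-- bound for the local factor -/
theorem cpow {η δ β : ℝ} {m : ℕ} (hη : |η| ≤ 1) (hδ : 0 ≤ δ) (hβ : |β| ≤ m) :
    0 < 1 - η * (2 : ℝ) ^ (-(1 / 2 + δ)) ∧
    (1 - η * (2 : ℝ) ^ (-(1 / 2 + δ))) ^ (-β) ≤ 4 ^ m := by
  have h1 : (2 : ℝ) ^ (-(1 / 2 + δ)) ≤ 3 / 4 := by
    have h2 : (2 : ℝ) ^ (-(1 / 2 + δ)) ≤ (2 : ℝ) ^ (-(1 / 2) : ℝ) :=
      Real.rpow_le_rpow_of_exponent_le (by norm_num) (by linarith)
    have h3 : (2 : ℝ) ^ (-(1 / 2) : ℝ) ≤ 3 / 4 := by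
      rw [Real.rpow_neg (by norm_num), ← Real.sqrt_eq_rpow, inv_le_comm₀ (by positivity) (by norm_num)]
      apply Real.le_sqrt_of_sq_le
      norm_num
    exact h2.trans h3
  have h0 : 0 < (2 : ℝ) ^ (-(1 / 2 + δ)) := by positivity
  have h4 := abs_le.1 hη
  have h5 : 1 / 4 ≤ 1 - η * (2 : ℝ) ^ (-(1 / 2 + δ)) := by nlinarith
  have h6 : 1 - η * (2 : ℝ) ^ (-(1 / 2 + δ)) ≤ 4 := by nlinarith
  set c : ℝ := 1 - η * (2 : ℝ) ^ (-(1 / 2 + δ)) with hc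
  have hc0 : 0 < c := by linarith
  refine ⟨hc0, ?_⟩
  have h7 : c ^ (-β) ≤ (4 : ℝ) ^ |β| := by
    rcases le_total 0 β with hb | hb
    · rw [abs_of_nonneg hb, Real.rpow_neg hc0.le, ← Real.inv_rpow hc0.le]
      apply Real.rpow_le_rpow (by positivity) _ hb
      rw [inv_le_comm₀ hc0 (by norm_num)]
      linarith
    · rw [abs_of_nonpos hb]
      exact Real.rpow_le_rpow hc0.le h6 (by linarith)
  refine h7.trans ?_
  rw [← Real.rpow_natCast]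
  exact Real.rpow_le_rpow_of_exponent_le (by norm_num) hβ

/-- the statement for one family, for all real `X` -/
def PP (φ : FD) (m : ℕ) (c : ℝ) (B A : ℕ) (C X0 : ℝ) : Prop :=
  ∀ X : ℝ, X0 ≤ X → ∀ δ : ℝ, C * Real.log (Real.log X) / Real.log X ≤ δ → δ ≤ 1 / 16 →
    ∀ V : ℝ, Real.log X ^ A ≤ V → V ≤ X ^ (c * δ) → ∀ β : ℝ, |β| ≤ m →
    |∑ d ∈ All φ X, clip V |LLg φ d (1 / 2 + δ)| ^ β -
      dens φ * (X / φ.r) * ((1 - φ.η * (2 : ℝ) ^ (-(1 / 2 + δ))) ^ (-β) * MT β δ)| ≤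
        1 / 4 * (X / Real.log X ^ B)

/-- the numbers of the family which are not in `Om` are few -/
theorem small_part {φ : FD} (hφ : Fam φ) {X V β : ℝ} {m : ℕ} (hX : 1 ≤ X) (hV : 1 ≤ V)
    (hβ : |β| ≤ m) (hVX : V ^ (m : ℝ) ≤ X ^ (1 / 16 : ℝ)) (g : ℕ → ℝ) :
    |∑ d ∈ All φ X, clip V (g d) ^ β - ∑ d ∈ Om φ (⌈X / φ.r⌉₊ - 1), clip V (g d) ^ β| ≤
      X ^ (13 / 16 : ℝ) := by
  classical
  obtain ⟨hr1, hr8⟩ := r_bd hφ
  have hr0 : (0 : ℝ) < φ.r := by exact_mod_cast hr1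
  set Y : ℕ := ⌈X / φ.r⌉₊ - 1 with hY
  have hXr : 0 < X / φ.r := by positivity
  have hc1 : 1 ≤ ⌈X / φ.r⌉₊ := Nat.ceil_pos.2 hXr
  have hYX : (Y : ℝ) ≤ X := by
    have h1 : ((⌈X / φ.r⌉₊ : ℕ) : ℝ) < X / φ.r + 1 := Nat.ceil_lt_add_one hXr.le
    have h2 : (Y : ℝ) = ((⌈X / φ.r⌉₊ : ℕ) : ℝ) - 1 := by
      rw [hY, Nat.cast_sub hc1, Nat.cast_one]
    have h3 : X / φ.r ≤ X := div_le_self (by linarith) (by exact_mod_cast hr1)
    linarith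
  have hsub : Om φ Y ⊆ All φ X := by
    intro d hd
    unfold Om at hd
    unfold All
    rw [Finset.mem_filter, Finset.mem_Icc] at hd
    rw [Finset.mem_filter, Finset.mem_range]
    exact ⟨by omega, hd.2.1, hd.2.2.1⟩
  rw [← Finset.sum_sdiff hsub, add_sub_cancel_right]
  have hcard : ((All φ X \ Om φ Y).card : ℝ) ≤ X ^ (3 / 4 : ℝ) := by
    have h1 : All φ X \ Om φ Y ⊆ Finset.Icc 1 ⌊X ^ (3 / 4 : ℝ)⌋₊ := by
      intro d hd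
      rw [Finset.mem_sdiff] at hd
      unfold Om All at hd
      rw [Finset.mem_filter, Finset.mem_range, Finset.mem_filter, Finset.mem_Icc] at hd
      obtain ⟨⟨h2, h3, h4⟩, h5⟩ := hd
      have hd1 : 1 ≤ d := Nat.one_le_iff_ne_zero.2 h4.ne_zero
      have h6 : d ^ 4 < Y ^ 3 := by
        by_contra hc
        exact h5 ⟨⟨hd1, by omega⟩, h3, h4, not_lt.1 hc⟩
      rw [Finset.mem_Icc]
      refine ⟨hd1, Nat.le_floor ?_⟩
      have h7 : ((d : ℝ) ^ 4) ≤ X ^ 3 := by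
        have h8 : ((d : ℝ) ^ 4) ≤ (Y : ℝ) ^ 3 := by exact_mod_cast h6.le
        exact h8.trans (pow_le_pow_left₀ (Nat.cast_nonneg _) hYX 3)
      have h9 : (d : ℝ) = ((d : ℝ) ^ 4) ^ (1 / 4 : ℝ) := by
        rw [← Real.rpow_natCast, ← Real.rpow_mul (Nat.cast_nonneg _)]
        norm_num
      have h10 : X ^ (3 / 4 : ℝ) = (X ^ 3) ^ (1 / 4 : ℝ) := by
        rw [← Real.rpow_natCast, ← Real.rpow_mul (by linarith)]
        norm_num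
      rw [h9, h10]
      exact Real.rpow_le_rpow (by positivity) h7 (by norm_num)
    have h2 := Finset.card_le_card h1
    rw [Nat.card_Icc, Nat.add_sub_cancel] at h2
    have h3 : ((⌊X ^ (3 / 4 : ℝ)⌋₊ : ℕ) : ℝ) ≤ X ^ (3 / 4 : ℝ) := Nat.floor_le (by positivity)
    have h4 : ((All φ X \ Om φ Y).card : ℝ) ≤ ((⌊X ^ (3 / 4 : ℝ)⌋₊ : ℕ) : ℝ) := by
      exact_mod_cast h2
    exact h4.trans h3
  have hterm : ∀ d ∈ All φ X \ Om φ Y, clip V (g d) ^ β ≤ X ^ (1 / 16 : ℝ) := by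
    intro d _
    refine (clip_pow_le hV β).trans (le_trans ?_ hVX)
    exact Real.rpow_le_rpow_of_exponent_le hV hβ
  have hnn : 0 ≤ ∑ d ∈ All φ X \ Om φ Y, clip V (g d) ^ β :=
    Finset.sum_nonneg fun d _ => Real.rpow_nonneg (clip_pos hV).le _
  rw [abs_of_nonneg hnn]
  refine (Finset.sum_le_card_nsmul _ _ _ hterm).trans ?_
  rw [nsmul_eq_mul]
  calc ((All φ X \ Om φ Y).card : ℝ) * X ^ (1 / 16 : ℝ) ≤ X ^ (3 / 4 : ℝ) * X ^ (1 / 16 : ℝ) :=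
        mul_le_mul_of_nonneg_right hcard (Real.rpow_nonneg (by linarith) _)
    _ = X ^ (13 / 16 : ℝ) := by
        rw [← Real.rpow_add (by linarith)]
        norm_num

theorem sizes {X L LY Yr CM : ℝ} {B E m : ℕ} (hX0 : 0 < X) (hL1 : 1 ≤ L) (hY : Yr ≤ X)
    (hLYl : L / 2 ≤ LY) (e1 : 12 * 2 ^ (B + 1) ≤ L)
    (e2 : 12 * L ^ B ≤ X ^ (3 / 16 : ℝ)) (e3 : 12 * (4 ^ m * CM ^ E) * L ^ (E + B) ≤ X) :
    Yr / LY ^ (B + 1) ≤ 1 / 12 * (X / L ^ B) ∧ X ^ (13 / 16 : ℝ) ≤ 1 / 12 * (X / L ^ B) ∧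
      4 ^ m * (CM * L) ^ E ≤ 1 / 12 * (X / L ^ B) := by
  have hL0 : 0 < L := by linarith
  have hLB : 0 < L ^ B := by positivity
  have h0 : 1 / 12 * (X / L ^ B) = X / (12 * L ^ B) := by field_simp
  refine ⟨?_, ?_, ?_⟩
  · have h1 : (L / 2) ^ (B + 1) ≤ LY ^ (B + 1) := pow_le_pow_left₀ (by positivity) hLYl _
    have h2 : Yr / LY ^ (B + 1) ≤ X / (L / 2) ^ (B + 1) := div_le_div₀ hX0.le hY (by positivity) h1
    refine h2.trans ?_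
    rw [div_pow, div_div_eq_mul_div, pow_succ L B, div_le_iff₀ (by positivity)]
    have h3 : 1 / 12 * (X / L ^ B) * (L ^ B * L) = X * (1 / 12 * L) := by
      field_simp
    rw [h3]
    have : 2 ^ (B + 1) ≤ 1 / 12 * L := by linarith
    exact mul_le_mul_of_nonneg_left this hX0.le
  · rw [h0, le_div_iff₀ (by positivity)]
    calc X ^ (13 / 16 : ℝ) * (12 * L ^ B) ≤ X ^ (13 / 16 : ℝ) * X ^ (3 / 16 : ℝ) :=
          mul_le_mul_of_nonneg_left e2 (Real.rpow_nonneg hX0.le _)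
      _ = X := by
          rw [← Real.rpow_add hX0]
          norm_num
  · rw [h0, le_div_iff₀ (by positivity)]
    calc 4 ^ m * (CM * L) ^ E * (12 * L ^ B) = 12 * (4 ^ m * CM ^ E) * L ^ (E + B) := by
          rw [mul_pow, pow_add]
          ring
      _ ≤ X := e3

theorem yfacts {X : ℝ} {r : ℕ} (hr1 : 1 ≤ r) (hr8 : r ≤ 8) (hX : 100 ≤ X) :
    (((⌈X / r⌉₊ - 1 : ℕ) : ℝ) ≤ X / r ∧ X / r - 1 ≤ ((⌈X / r⌉₊ - 1 : ℕ) : ℝ)) ∧
    ((⌈X / r⌉₊ - 1 : ℕ) : ℝ) ≤ X ∧ X / 8 - 1 ≤ ((⌈X / r⌉₊ - 1 : ℕ) : ℝ) ∧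
    X ≤ ((⌈X / r⌉₊ - 1 : ℕ) : ℝ) ^ 2 := by
  have hr0 : (0 : ℝ) < r := by exact_mod_cast hr1
  have hr8' : (r : ℝ) ≤ 8 := by exact_mod_cast hr8
  have hX0 : 0 < X := by linarith
  have hXr : 0 < X / r := by positivity
  have hce1 : 1 ≤ ⌈X / r⌉₊ := Nat.ceil_pos.2 hXr
  have hYc : ((⌈X / r⌉₊ - 1 : ℕ) : ℝ) = ((⌈X / r⌉₊ : ℕ) : ℝ) - 1 := by
    rw [Nat.cast_sub hce1, Nat.cast_one]
  rw [hYc]
  have h1 : ((⌈X / r⌉₊ : ℕ) : ℝ) < X / r + 1 := Nat.ceil_lt_add_one hXr.le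
  have h2 := Nat.le_ceil (X / r)
  have h3 : X / 8 ≤ X / r := by gcongr
  have h4 : X / r ≤ X := div_le_self hX0.le (by exact_mod_cast hr1)
  have h5 : X / 8 - 1 ≤ ((⌈X / r⌉₊ : ℕ) : ℝ) - 1 := by linarith
  refine ⟨⟨by linarith, by linarith⟩, by linarith, h5, ?_⟩
  nlinarith

theorem logfacts {X L LY Y : ℝ} (hL : L = Real.log X) (hLY : LY = Real.log Y) (hX0 : 0 < X)
    (hY1 : 0 < Y) (hYX : Y ≤ X) (hsq : X ≤ Y ^ 2) : LY ≤ L ∧ L / 2 ≤ LY := by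
  subst hL hLY
  refine ⟨Real.log_le_log hY1 hYX, ?_⟩
  have h1 := Real.log_le_log hX0 hsq
  rw [Real.log_pow] at h1
  push_cast at h1
  linarith

theorem dcond {L LY C1 δ : ℝ} (hC1 : 0 < C1) (hLY1 : 1 ≤ LY) (h1 : LY ≤ L) (h2 : L / 2 ≤ LY)
    (hδ : max 1 (2 * C1) * Real.log L / L ≤ δ) : C1 * Real.log LY / LY ≤ δ := by
  refine le_trans ?_ hδ
  have hLY0 : 0 < LY := by linarith
  have hL0 : 0 < L := by linarith
  have h3 : Real.log LY ≤ Real.log L := Real.log_le_log hLY0 h1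
  have h4 : 2 * C1 ≤ max 1 (2 * C1) := le_max_right _ _
  have h5 : 0 ≤ Real.log LY := Real.log_nonneg hLY1
  have h6 : 0 ≤ Real.log L := h5.trans h3
  rw [div_le_div_iff₀ hLY0 hL0]
  have h7 : C1 * Real.log LY * L ≤ C1 * Real.log L * L := by gcongr
  have h8 : C1 * Real.log L * L ≤ 2 * C1 * Real.log L * LY := by
    have : 0 ≤ C1 * Real.log L := by positivity
    nlinarith
  have h9 : 2 * C1 * Real.log L * LY ≤ max 1 (2 * C1) * Real.log L * LY := by gcongr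
  linarith

theorem vcond {X V c c1 δ Y : ℝ} (hX0 : 0 < X) (hδ : 0 < δ) (hc0 : 0 < c) (hcc : c ≤ c1 / 2)
    (hY1 : 1 ≤ Y) (hsq : X ≤ Y ^ 2) (hV : V ≤ X ^ (c * δ)) : V ≤ Y ^ (c1 * δ) := by
  refine hV.trans ?_
  have h1 : X ^ (c * δ) ≤ (Y ^ 2) ^ (c * δ) := Real.rpow_le_rpow hX0.le hsq (by positivity)
  have h2 : (Y ^ 2) ^ (c * δ) = Y ^ (2 * (c * δ)) := by
    rw [← Real.rpow_natCast, ← Real.rpow_mul (by linarith)]
    norm_num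
  rw [h2] at h1
  refine h1.trans (Real.rpow_le_rpow_of_exponent_le hY1 ?_)
  nlinarith

theorem vcond' {X V c δ : ℝ} {m : ℕ} (hX1 : 1 ≤ X) (hV1 : 1 ≤ V) (hδ : 0 < δ) (hδ2 : δ ≤ 1 / 16)
    (hc0 : 0 < c) (hcm : c ≤ 1 / (m + 1)) (hV : V ≤ X ^ (c * δ)) :
    V ^ (m : ℝ) ≤ X ^ (1 / 16 : ℝ) := by
  have h1 : V ^ (m : ℝ) ≤ (X ^ (c * δ)) ^ (m : ℝ) :=
    Real.rpow_le_rpow (by linarith) hV (Nat.cast_nonneg _)
  rw [← Real.rpow_mul (by linarith)] at h1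
  refine h1.trans (Real.rpow_le_rpow_of_exponent_le hX1 ?_)
  have h2 : c * m ≤ 1 := by
    have h3 : c * (m + 1) ≤ 1 := by
      rwa [le_div_iff₀ (by positivity)] at hcm
    linarith
  have h3 : c * δ * m = (c * m) * δ := by ring
  rw [h3]
  have h4 : 0 ≤ c * m := by positivity
  nlinarith

theorem wbound {c β M CM L δ : ℝ} {m E : ℕ} (hc0 : 0 < c) (hc : c ^ (-β) ≤ 4 ^ m)
    (hM : |M| ≤ (CM / δ) ^ E) (hCM : 1 ≤ CM) (hδ0 : 0 < δ) (hL0 : 0 < L) (hδL : 1 / L ≤ δ) :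
    |c ^ (-β) * M| ≤ 4 ^ m * (CM * L) ^ E := by
  rw [abs_mul, abs_of_nonneg (Real.rpow_nonneg hc0.le _)]
  have h1 : CM / δ ≤ CM * L := by
    rw [div_le_iff₀ hδ0]
    have h2 : 1 ≤ L * δ := by
      rw [div_le_iff₀ hL0] at hδL
      linarith
    nlinarith
  have h2 : |M| ≤ (CM * L) ^ E := hM.trans (pow_le_pow_left₀ (by positivity) h1 E)
  exact mul_le_mul hc h2 (abs_nonneg _) (by positivity)

theorem dens_bd {φ : FD} (hφ : Fam φ) : 0 ≤ dens φ ∧ dens φ ≤ 1 := by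
  obtain ⟨hd0, hd1⟩ := d_bd hφ
  unfold dens
  have hpi : (9 : ℝ) ≤ Real.pi ^ 2 := by nlinarith [Real.pi_gt_three]
  have h1 : 8 / Real.pi ^ 2 ≤ 1 := by
    rw [div_le_one (by positivity)]
    linarith
  have h2 : 0 ≤ 8 / Real.pi ^ 2 := by positivity
  constructor
  · positivity
  · nlinarith

theorem mtbd {D Y Z W K : ℝ} (hD0 : 0 ≤ D) (hD1 : D ≤ 1) (h1 : Y ≤ Z) (h2 : Z - 1 ≤ Y)
    (hW : |W| ≤ K) : |D * Y * W - D * Z * W| ≤ K := by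
  have h3 : D * Y * W - D * Z * W = D * ((Y - Z) * W) := by ring
  rw [h3, abs_mul, abs_mul, abs_of_nonneg hD0]
  have h4 : |Y - Z| ≤ 1 := by
    rw [abs_le]
    constructor <;> linarith
  have h5 : |Y - Z| * |W| ≤ 1 * K := mul_le_mul h4 hW (abs_nonneg _) zero_le_one
  have h6 : 0 ≤ |Y - Z| * |W| := by positivity
  nlinarith

theorem P_main (hFAM : S_FAM) (hMTB : S_MTB) {φ : FD} (hφ : Fam φ) (m : ℕ) :
    ∃ c : ℝ, 0 < c ∧ ∀ B : ℕ, ∃ (A : ℕ) (C X0 : ℝ), 0 < C ∧ 16 ≤ X0 ∧ PP φ m c B A C X0 := by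
  obtain ⟨c1, hc1, hB⟩ := hFAM φ hφ m
  obtain ⟨CM, E, hCM, hM⟩ := hMTB m
  obtain ⟨hr1, hr8⟩ := r_bd hφ
  refine ⟨min (c1 / 2) (1 / (m + 1)), lt_min (by linarith) (by positivity), fun B => ?_⟩
  obtain ⟨A, C1, Y0, hC1, h⟩ := hB (B + 1)
  have hcc : min (c1 / 2) (1 / ((m : ℝ) + 1)) ≤ c1 / 2 := min_le_left _ _
  have hcm : min (c1 / 2) (1 / ((m : ℝ) + 1)) ≤ 1 / (m + 1) := min_le_right _ _
  have hc0 : 0 < min (c1 / 2) (1 / ((m : ℝ) + 1)) := lt_min (by linarith) (by positivity)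
  have ev := (((ev_log' (12 * 2 ^ (B + 1))).and (ev_log 12 (3 / 16) B (by norm_num))).and
    ((ev_log (12 * (4 ^ m * CM ^ E)) 1 (E + B) one_pos).and (ev_loglog 1))).and
    ((eventually_ge_atTop (8 * (Y0 + 1))).and (eventually_ge_atTop (100 : ℝ)))
  obtain ⟨X1, hX1⟩ := eventually_atTop.1 ev
  clear ev hB hc1
  refine ⟨A, max 1 (2 * C1), max X1 100, lt_max_of_lt_left one_pos,
    le_trans (by norm_num) (le_max_right _ _), ?_⟩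
  intro X hX δ hδ1 hδ2 V hV1 hV2 β hβ
  obtain ⟨⟨⟨e1, e2⟩, e3, e4⟩, e5, e6⟩ := hX1 X ((le_max_left _ _).trans hX)
  clear hX1 hX
  rw [Real.rpow_one] at e3
  obtain ⟨⟨hYu, hYl⟩, hYX, hY8, hYsq⟩ := yfacts hr1 hr8 e6
  have hpow : (1 : ℝ) ≤ 2 ^ (B + 1) := one_le_pow₀ (by norm_num)
  have hX0 : 0 < X := by linarith only [e6]
  have hX1 : 1 ≤ X := by linarith only [e6]
  have hY1 : 1 ≤ ((⌈X / φ.r⌉₊ - 1 : ℕ) : ℝ) := by linarith only [hY8, e6]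
  have hYY0 : Y0 ≤ ((⌈X / φ.r⌉₊ - 1 : ℕ) : ℝ) := by linarith only [hY8, e5]
  have hsmall := fun hV hVm => small_part hφ (X := X) (V := V) (β := β) (m := m) hX1 hV hβ hVm
    (fun d => |LLg φ d (1 / 2 + δ)|)
  have hmain := h (⌈X / φ.r⌉₊ - 1) hYY0 δ
  obtain ⟨hLYL, hLYl⟩ := logfacts (L := Real.log X)
    (LY := Real.log ((⌈X / φ.r⌉₊ - 1 : ℕ) : ℝ)) rfl rfl hX0 (by linarith only [hY1]) hYX hYsq
  have hL2 : 2 ≤ Real.log X := by linarith only [e1, hpow]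
  have hL1 : 1 ≤ Real.log X := by linarith only [hL2]
  have hL0 : 0 < Real.log X := by linarith only [hL2]
  have hLY1 : 1 ≤ Real.log ((⌈X / φ.r⌉₊ - 1 : ℕ) : ℝ) := by linarith only [hL2, hLYl]
  have hδL : 1 / Real.log X ≤ δ := by
    refine le_trans ?_ hδ1
    rw [div_le_div_iff_of_pos_right hL0]
    have h1 : (1 : ℝ) ≤ max 1 (2 * C1) := le_max_left _ _
    nlinarith only [h1, e4]
  have hδ0 : 0 < δ := lt_of_lt_of_le (by positivity) hδL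
  have hV : 1 ≤ V := le_trans (one_le_pow₀ hL1) hV1
  have hmain' := hmain (dcond hC1 hLY1 hLYL hLYl hδ1) hδ2 V
    ((pow_le_pow_left₀ (by linarith only [hLY1]) hLYL A).trans hV1)
    (vcond hX0 hδ0 hc0 hcc hY1 hYsq hV2) β hβ
  have hsmall' := hsmall hV (vcond' hX1 hV hδ0 hδ2 hc0 hcm hV2)
  obtain ⟨hcp0, hcp⟩ := cpow (η := φ.η) (δ := δ) (β := β) (m := m) (e_bd hφ) hδ0.le hβ
  obtain ⟨-, hMT⟩ := hM β hβ δ hδ0 (by linarith only [hδ2])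
  have hWb := wbound (c := 1 - φ.η * (2 : ℝ) ^ (-(1 / 2 + δ))) hcp0 hcp hMT hCM hδ0 hL0 hδL
  obtain ⟨hD0, hD1⟩ := dens_bd hφ
  have hmt := mtbd hD0 hD1 hYu hYl hWb
  obtain ⟨s1, s2, s3⟩ := sizes hX0 hL1 hYX hLYl e1 e2 e3
  generalize hg1 : ∑ d ∈ All φ X, clip V |LLg φ d (1 / 2 + δ)| ^ β = S1 at *
  generalize hg2 : ∑ d ∈ Om φ (⌈X / φ.r⌉₊ - 1), clip V |LLg φ d (1 / 2 + δ)| ^ β = S2 at *
  generalize hg3 : (1 - φ.η * (2 : ℝ) ^ (-(1 / 2 + δ))) ^ (-β) * MT β δ = W at *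
  generalize hg4 : dens φ * ((⌈X / φ.r⌉₊ - 1 : ℕ) : ℝ) * W = Z1 at *
  generalize hg5 : dens φ * (X / φ.r) * W = Z2 at *
  have t1 : S1 - Z2 = (S1 - S2) + (S2 - Z1) + (Z1 - Z2) := by ring
  rw [t1]
  have t2 := abs_add_le ((S1 - S2) + (S2 - Z1)) (Z1 - Z2)
  have t3 := abs_add_le (S1 - S2) (S2 - Z1)
  linarith only [t2, t3, hmain', hsmall', hmt, s1, s2, s3]

theorem log_ge {X : ℝ} (hX : 16 ≤ X) : 2 ≤ Real.log X := by
  have h1 : Real.exp 2 ≤ 16 := by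
    have h2 : Real.exp 2 = Real.exp 1 ^ 2 := by
      rw [← Real.exp_nat_mul]
      norm_num
    rw [h2]
    have h3 := Real.exp_one_lt_d9
    have h4 := Real.exp_pos 1
    nlinarith
  rw [Real.le_log_iff_exp_le (by linarith)]
  linarith

theorem PP_mono {φ : FD} {m B A A' : ℕ} {c c' C C' X0 X0' : ℝ} (h : PP φ m c B A C X0)
    (hc : c' ≤ c) (hA : A ≤ A') (hC0 : 0 < C) (hC : C ≤ C') (hX : X0 ≤ X0') (h16 : 16 ≤ X0') :
    PP φ m c' B A' C' X0' := by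
  intro X hX' δ hδ1 hδ2 V hV1 hV2 β hβ
  have hX16 : 16 ≤ X := h16.trans hX'
  have hL : 1 ≤ Real.log X := by linarith [log_ge hX16]
  have hLL : 0 ≤ Real.log (Real.log X) := Real.log_nonneg hL
  have h1 : C * Real.log (Real.log X) / Real.log X ≤ C' * Real.log (Real.log X) / Real.log X := by
    gcongr
  have hδ0 : 0 ≤ δ := le_trans (by positivity) (h1.trans hδ1)
  exact h X (hX.trans hX') δ (h1.trans hδ1) hδ2 V ((pow_le_pow_right₀ hL hA).trans hV1)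
    (hV2.trans (Real.rpow_le_rpow_of_exponent_le (by linarith)
      (mul_le_mul_of_nonneg_right hc hδ0))) β hβ

theorem unif (hFAM : S_FAM) (hMTB : S_MTB) (m : ℕ) (s : Finset FD) (hs : ∀ φ ∈ s, Fam φ) :
    ∃ c : ℝ, 0 < c ∧ ∀ B : ℕ, ∃ (A : ℕ) (C X0 : ℝ), 0 < C ∧ 16 ≤ X0 ∧
      ∀ φ ∈ s, PP φ m c B A C X0 := by
  classical
  induction s using Finset.induction_on with
  | empty => exact ⟨1, one_pos, fun B => ⟨0, 1, 16, one_pos, le_rfl, by simp⟩⟩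
  | insert a s ha ih =>
    obtain ⟨c2, hc2, h2⟩ := ih (fun φ h => hs φ (Finset.mem_insert_of_mem h))
    obtain ⟨c1, hc1, h1⟩ := P_main hFAM hMTB (hs a (Finset.mem_insert_self a s)) m
    refine ⟨min c1 c2, lt_min hc1 hc2, fun B => ?_⟩
    obtain ⟨A1, C1, X1, hC1, hX1, p1⟩ := h1 B
    obtain ⟨A2, C2, X2, hC2, hX2, p2⟩ := h2 B
    refine ⟨max A1 A2, max C1 C2, max X1 X2, lt_max_of_lt_left hC1,
      hX1.trans (le_max_left _ _), ?_⟩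
    intro φ hφ
    rcases Finset.mem_insert.1 hφ with rfl | hφ
    · exact PP_mono p1 (min_le_left _ _) (le_max_left _ _) hC1 (le_max_left _ _)
        (le_max_left _ _) (hX1.trans (le_max_left _ _))
    · exact PP_mono (p2 φ hφ) (min_le_right _ _) (le_max_right _ _) hC2 (le_max_right _ _)
        (le_max_right _ _) (hX1.trans (le_max_left _ _))

theorem main_sum (ε : ℤ) (β δ X : ℝ) :
    ∑ φ ∈ FE ε, dens φ * (X / φ.r) * ((1 - φ.η * (2 : ℝ) ^ (-(1 / 2 + δ))) ^ (-β) * MT β δ) =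
      3 / Real.pi ^ 2 * X * (lfac β δ 2 * MT β δ) := by
  rw [sum_FE]
  have h0 : (1 - (0 : ℝ) * (2 : ℝ) ^ (-(1 / 2 + δ))) ^ (-β) = 1 := by
    rw [zero_mul, sub_zero, Real.one_rpow]
  have e8 : dens (F8 ε) * (X / (F8 ε).r) *
      ((1 - (F8 ε).η * (2 : ℝ) ^ (-(1 / 2 + δ))) ^ (-β) * MT β δ) =
      1 / 2 * (8 / Real.pi ^ 2) * (X / 8) * MT β δ := by
    have : (1 - (F8 ε).η * (2 : ℝ) ^ (-(1 / 2 + δ))) ^ (-β) = 1 := h0
    rw [this, one_mul]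
    rfl
  have e4 : dens (F4 ε) * (X / (F4 ε).r) *
      ((1 - (F4 ε).η * (2 : ℝ) ^ (-(1 / 2 + δ))) ^ (-β) * MT β δ) =
      1 / 4 * (8 / Real.pi ^ 2) * (X / 4) * MT β δ := by
    have : (1 - (F4 ε).η * (2 : ℝ) ^ (-(1 / 2 + δ))) ^ (-β) = 1 := h0
    rw [this, one_mul]
    rfl
  have e1 : dens (F1 ε 1) * (X / (F1 ε 1).r) *
      ((1 - (F1 ε 1).η * (2 : ℝ) ^ (-(1 / 2 + δ))) ^ (-β) * MT β δ) =
      1 / 8 * (8 / Real.pi ^ 2) * X * ((1 - (2 : ℝ) ^ (-(1 / 2 + δ))) ^ (-β) * MT β δ) := by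
    have h1 : (F1 ε 1).η = 1 := by simp [F1]
    have h2 : (F1 ε 1).r = 1 := rfl
    rw [h1, h2, one_mul, Nat.cast_one, div_one]
    rfl
  have e5 : dens (F1 ε 5) * (X / (F1 ε 5).r) *
      ((1 - (F1 ε 5).η * (2 : ℝ) ^ (-(1 / 2 + δ))) ^ (-β) * MT β δ) =
      1 / 8 * (8 / Real.pi ^ 2) * X * ((1 + (2 : ℝ) ^ (-(1 / 2 + δ))) ^ (-β) * MT β δ) := by
    have h1 : (F1 ε 5).η = -1 := by
      simp only [F1]
      norm_num
    have h2 : (F1 ε 5).r = 1 := rfl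
    rw [h1, h2, neg_one_mul, sub_neg_eq_add, Nat.cast_one, div_one]
    rfl
  rw [e8, e4, e1, e5]
  unfold lfac
  push_cast
  have hpi : (Real.pi : ℝ) ≠ 0 := Real.pi_ne_zero
  generalize (1 - (2 : ℝ) ^ (-(1 / 2 + δ))) ^ (-β) = x
  generalize (1 + (2 : ℝ) ^ (-(1 / 2 + δ))) ^ (-β) = y
  field_simp
  ring

/-- **FIN** -/
theorem FIN (h1 : S_FAM) (h2 : S_MTB) : S_FIN := by
  classical
  intro m
  obtain ⟨c, hc, h⟩ := unif h1 h2 m (FE 1 ∪ FE (-1)) (fun φ hφ => by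
    rcases Finset.mem_union.1 hφ with h | h
    · exact FE_fam (Or.inl rfl) h
    · exact FE_fam (Or.inr rfl) h)
  refine ⟨c, hc, fun B => ?_⟩
  obtain ⟨A, C, X0, hC, hX0, hP⟩ := h B
  refine ⟨A, C, X0, hC, fun X hX ε hε => ⟨SX_fin hε X, fun δ hδ1 hδ2 V hV1 hV2 β hβ => ?_⟩⟩
  have hL := log_ge (hX0.trans hX)
  have hLL : 0 < Real.log (Real.log X) := Real.log_pos (by linarith)
  have hδ0 : 0 < δ := lt_of_lt_of_le (by positivity) hδ1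
  rw [finsum_SX hε, ← main_sum ε, ← Finset.sum_sub_distrib]
  refine (Finset.abs_sum_le_sum_abs _ _).trans ?_
  have key : ∀ φ ∈ FE ε, |∑ d ∈ All φ X, clip V ‖Lv δ (ch φ d)‖ ^ β -
      dens φ * (X / φ.r) * ((1 - φ.η * (2 : ℝ) ^ (-(1 / 2 + δ))) ^ (-β) * MT β δ)| ≤
        1 / 4 * (X / Real.log X ^ B) := by
    intro φ hφ
    have hF := FE_fam hε hφ
    have hmem : φ ∈ FE 1 ∪ FE (-1) := by
      rcases hε with rfl | rfl
      · exact Finset.mem_union_left _ hφ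
      · exact Finset.mem_union_right _ hφ
    have h3 := hP φ hmem X hX δ hδ1 hδ2 V hV1 hV2 β hβ
    have h4 : ∑ d ∈ All φ X, clip V ‖Lv δ (ch φ d)‖ ^ β =
        ∑ d ∈ All φ X, clip V |LLg φ d (1 / 2 + δ)| ^ β := by
      refine Finset.sum_congr rfl fun d hd => ?_
      obtain ⟨-, hA, hs⟩ := (mem_All hF).1 hd
      rw [Lv_ch (ch_spec hF hA hs) hδ0]
    rw [h4]
    exact h3
  refine (Finset.sum_le_sum key).trans ?_
  rw [sum_FE]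
  linarith

end

end Pool.Agent.Y936.TQ
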